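import Mathlib

/-!
# A criterion for acyclic graphs
-/

set_option autoImplicit false

namespace Pool.Agent.Zk9.PP

open SimpleGraph

/-- a graph with a level function such that neighbours have different levels and every vertex has at
most one neighbour of a lower level is acyclic -/
theorem acyclic_of_level {V : Type*} (T : SimpleGraph V) (h : V → ℕ)
    (h1 : ∀ u v, T.Adj u v → h u ≠ h v)
    (h2 : ∀ v u u', T.Adj v u → T.Adj v u' → h u < h v → h u' < h v → u = u') : T.IsAcyclic := by
  classical
  intro v c hc
  obtain ⟨w, hw, hmax⟩ := c.support.toFinset.exists_max_image h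
    ⟨v, List.mem_toFinset.2 c.start_mem_support⟩
  rw [List.mem_toFinset] at hw
  have hc' := hc.rotate hw
  have hn : ¬ (c.rotate w hw).Nil := by
    intro hnil
    have := hc'.three_le_length
    rw [Walk.length_eq_zero_iff.2 hnil] at this
    omega
  have hsup : ∀ x ∈ (c.rotate w hw).support, h x ≤ h w := by
    intro x hx
    apply hmax
    rw [List.mem_toFinset]
    have := (Walk.mem_support_rotate_iff c w hw).1 hx
    exact this
  have a1 := Walk.adj_snd hn
  have a2 := Walk.adj_penultimate hn
  have e1 : h (c.rotate w hw).snd < h w :=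
    lt_of_le_of_ne (hsup _ (Walk.getVert_mem_support _ _)) (h1 _ _ a1).symm
  have e2 : h (c.rotate w hw).penultimate < h w :=
    lt_of_le_of_ne (hsup _ (Walk.getVert_mem_support _ _)) (h1 _ _ a2)
  exact hc'.snd_ne_penultimate (h2 w _ _ a1 a2.symm e1 e2)

end Pool.Agent.Zk9.PP
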