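import Mathlib
import Pool.Agent.Zk9.PP.Main
import Pool.Agent.N77.CP.Ind2

/-!
# Affine groups over algebraic extensions of the rational numbers
-/

set_option autoImplicit false

open MvPolynomial

namespace Pool.Agent.Zk9.PP

open Pool.Agent.H922R2 (GA AG Wsub mem_Wsub AG_forms ga_ext)
open Pool.Agent.Y110.FJ (ClosedE)
open Pool.Agent.N509.TX (AcylF of_fg)

variable {K : ∀ (G : Type) [Group G], Prop}

section

variable {k : Type} [Field k] [Algebra ℚ k] (A : Subalgebra ℚ k)

/-- affine polynomials with coefficients in `A` -/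
noncomputable def MA : Submodule A (MvPolynomial (Fin 2) k) :=
  Submodule.span A {1, X 0, X 1}

theorem mem_MA {p q r : k} (hp : p ∈ A) (hq : q ∈ A) (hr : r ∈ A) :
    C p * X 0 + C q * X 1 + C r ∈ MA A := by
  have h : ∀ (s : k) (hs : s ∈ A) (v : MvPolynomial (Fin 2) k), v ∈ MA A → C s * v ∈ MA A := by
    intro s hs v hv
    have h1 : C s * v = (⟨s, hs⟩ : A) • v := by
      rw [Subalgebra.smul_def, smul_eq_C_mul]
    rw [h1]
    exact Submodule.smul_mem _ _ hv
  refine add_mem (add_mem (h p hp _ ?_) (h q hq _ ?_)) ?_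
  · exact Submodule.subset_span (by simp)
  · exact Submodule.subset_span (by simp)
  · have := h r hr 1 (Submodule.subset_span (by simp))
    rwa [mul_one] at this

theorem map_MA {g : GA k} (h0 : g (X 0) ∈ MA A) (h1 : g (X 1) ∈ MA A) {v : MvPolynomial (Fin 2) k}
    (hv : v ∈ MA A) : g v ∈ MA A := by
  unfold MA at hv
  induction hv using Submodule.span_induction with
  | mem x hx =>
    rcases hx with rfl | rfl | rfl
    · rw [map_one]
      exact Submodule.subset_span (by simp)
    · exact h0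
    · exact h1
  | zero => rw [map_zero]; exact zero_mem _
  | add x y _ _ hx hy => rw [map_add]; exact add_mem hx hy
  | smul a x _ hx =>
    have h2 : g (a • x) = a • g x := by
      rw [Subalgebra.smul_def, Subalgebra.smul_def]
      exact map_smul g _ _
    rw [h2]
    exact Submodule.smul_mem _ _ hx

end

theorem C_AG_alg (hC : ClosedE K) (hL : ∀ m : ℕ, K (Matrix.GeneralLinearGroup (Fin m) ℚ))
    {k : Type} [Field k] [Algebra ℚ k] [Algebra.IsAlgebraic ℚ k] : K (AG k) := by
  classical
  refine of_fg hC fun H hH => ?_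
  obtain ⟨S, hS⟩ := (Group.fg_iff_subgroup_fg H).1 hH
  -- the coefficients
  have hform : ∀ g : AG k, ∀ i : Fin 2, ∃ w : Fin 3 → k,
      (g : GA k) (X i) = C (w 0) * X 0 + C (w 1) * X 1 + C (w 2) := by
    intro g i
    have hi : (g : GA k) (X i) ∈ Wsub k := by
      fin_cases i
      · exact (AG_forms g.2).1
      · exact (AG_forms g.2).2
    obtain ⟨p, q, r, h⟩ := mem_Wsub.1 hi
    exact ⟨![p, q, r], h⟩
  choose w hw using hform
  obtain ⟨E, hE⟩ : ∃ E : Set k, E = ⋃ g ∈ (S ∪ S.image (·⁻¹) : Finset (AG k)), ⋃ i : Fin 2,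
    Set.range (w g i) := ⟨_, rfl⟩
  have hEf : E.Finite := by
    rw [hE]
    refine Set.Finite.biUnion (Finset.finite_toSet _) fun g _ => ?_
    exact Set.finite_iUnion fun i => Set.finite_range _
  obtain ⟨A, hA⟩ : ∃ A, A = Algebra.adjoin ℚ E := ⟨_, rfl⟩
  have hAf : Module.Finite ℚ A := by
    rw [hA]
    have : (Subalgebra.toSubmodule (Algebra.adjoin ℚ E)).FG :=
      fg_adjoin_of_finite hEf fun x _ => Algebra.IsIntegral.isIntegral x
    exact Module.Finite.iff_fg.2 this
  have hEA : ∀ g ∈ (S ∪ S.image (·⁻¹) : Finset (AG k)), ∀ i j, w g i j ∈ A := by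
    intro g hg i j
    rw [hA]
    apply Algebra.subset_adjoin
    rw [hE]
    exact Set.mem_biUnion hg (Set.mem_iUnion.2 ⟨i, ⟨j, rfl⟩⟩)
  have hgen : ∀ g ∈ (S ∪ S.image (·⁻¹) : Finset (AG k)), ∀ i, (g : GA k) (X i) ∈ MA A := by
    intro g hg i
    rw [hw g i]
    exact mem_MA A (hEA g hg i 0) (hEA g hg i 1) (hEA g hg i 2)
  have hinv : ∀ g ∈ H, ∀ v ∈ MA A, (g : GA k) v ∈ MA A := by
    intro g hg
    rw [← hS] at hg
    induction hg using Subgroup.closure_induction'' with
    | mem x hx =>
      intro v hv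
      have hx' : x ∈ (S ∪ S.image (·⁻¹) : Finset (AG k)) := Finset.mem_union_left _ hx
      exact map_MA A (hgen x hx' 0) (hgen x hx' 1) hv
    | inv_mem x hx =>
      intro v hv
      have hx' : x⁻¹ ∈ (S ∪ S.image (·⁻¹) : Finset (AG k)) :=
        Finset.mem_union_right _ (Finset.mem_image_of_mem _ hx)
      exact map_MA A (hgen _ hx' 0) (hgen _ hx' 1) hv
    | one => intro v hv; exact hv
    | mul x y _ _ hx hy =>
      intro v hv
      exact hx _ (hy v hv)
  -- the representation
  let M : Submodule ℚ (MvPolynomial (Fin 2) k) := (MA A).restrictScalars ℚ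
  have hM1 : Module.Finite A (MA A) := Module.Finite.span_of_finite A (Set.toFinite _)
  have hM : Module.Finite ℚ M := by
    have : Module.Finite ℚ (MA A) := Module.Finite.trans A (MA A)
    exact this
  have hcv : K (M ≃ₗ[ℚ] M) := Pool.Agent.N77.CP.C_linV hC hL M
  let r : H → (M →ₗ[ℚ] M) := fun g =>
    { toFun := fun v => ⟨((g : AG k) : GA k) v, hinv g g.2 v v.2⟩
      map_add' := fun v w => Subtype.ext (map_add ((g : AG k) : GA k) (v : MvPolynomial (Fin 2) k) w)
      map_smul' := fun a v => Subtype.ext (by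
        show ((g : AG k) : GA k) (a • (v : MvPolynomial (Fin 2) k)) = a • ((g : AG k) : GA k) v
        rw [← algebraMap_smul k a (v : MvPolynomial (Fin 2) k), map_smul, algebraMap_smul]) }
  let R : H →* (M →ₗ[ℚ] M) :=
    { toFun := r
      map_one' := rfl
      map_mul' := fun g h => rfl }
  have hRi : Function.Injective R := by
    intro g h hgh
    have h1 : ∀ v ∈ MA A, ((g : AG k) : GA k) v = ((h : AG k) : GA k) v := fun v hv =>
      congrArg Subtype.val (LinearMap.congr_fun hgh ⟨v, hv⟩)
    apply Subtype.ext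
    apply Subtype.ext
    exact ga_ext (h1 _ (Submodule.subset_span (by simp))) (h1 _ (Submodule.subset_span (by simp)))
  let e1 : (M ≃ₗ[ℚ] M) ≃* LinearMap.GeneralLinearGroup ℚ M :=
    (LinearMap.GeneralLinearGroup.generalLinearEquiv ℚ M).symm
  refine hC.base.of_injective _ _ (e1.symm.toMonoidHom.comp (MonoidHom.toHomUnits R)) ?_ hcv
  intro g h hgh
  have h2 : MonoidHom.toHomUnits R g = MonoidHom.toHomUnits R h := e1.symm.injective hgh
  exact hRi (congrArg Units.val h2)

end Pool.Agent.Zk9.PP
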